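import Pool.Agent.Helper85.MU.Stmts2
import Pool.Agent.Helper85.MU.SubLem
import Pool.Agent.Helper92.MU.IRR
import Pool.Agent.Helper22.MU.END

/-!
# MIX: irreducibility if every place over `p₀` has maximally unipotent monodromy or pure good
reduction, and some place has maximally unipotent monodromy (proof: /team-store/mu_mix.md)
-/

set_option autoImplicit false
set_option maxHeartbeats 800000

open Matrix Polynomial NumberField

namespace MU

/-! ## Conjugation -/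

lemma mix_pow {G K : Type} [Group G] [Field K] {n : ℕ} (r : G →* Matrix (Fin n) (Fin n) K)
    (g τ : G) (j : ℕ) :
    (r τ - 1) ^ j = r g⁻¹ * (r (g * τ * g⁻¹) - 1) ^ j * r g := by
  have h : r g * (r τ - 1) = (r (g * τ * g⁻¹) - 1) * r g := by
    rw [Matrix.mul_sub, Matrix.sub_mul, ← map_mul, ← map_mul, Matrix.mul_one, Matrix.one_mul,
      inv_mul_cancel_right]
  induction j with
  | zero => rw [pow_zero, pow_zero, Matrix.mul_one, ← map_mul, inv_mul_cancel, map_one]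
  | succ j ih =>
    rw [pow_succ, ih, pow_succ, Matrix.mul_assoc, h, Matrix.mul_assoc, Matrix.mul_assoc,
      Matrix.mul_assoc]

section

variable {F : Type} [Field F]

lemma mix_int (g : Gal F) (x : Zb F) :
    ∃ y : Zb F, (y : AlgebraicClosure F) = g (x : AlgebraicClosure F) := by
  refine ⟨⟨g x, ?_⟩, rfl⟩
  have h1 : IsIntegral ℤ (x : AlgebraicClosure F) := x.2
  exact h1.map ((g : AlgebraicClosure F →+* AlgebraicClosure F).toIntAlgHom)

lemma mix_inv (g : Gal F) (x : AlgebraicClosure F) : g (g⁻¹ x) = x := by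
  rw [← AlgEquiv.mul_apply, mul_inv_cancel, AlgEquiv.one_apply]

lemma mix_cong {𝔓 𝔔 : Ideal (Zb F)} (g : Gal F)
    (hg : ∀ x y : Zb F, (y : AlgebraicClosure F) = g (x : AlgebraicClosure F) →
      (x ∈ 𝔓 ↔ y ∈ 𝔔)) (q : ℕ) (σ : Gal F) (hσ : CongPow 𝔓 q σ) :
    CongPow 𝔔 q (g * σ * g⁻¹ : Gal F) := by
  intro x y hxy
  obtain ⟨x', hx'⟩ := mix_int g⁻¹ x
  obtain ⟨y', hy'⟩ := mix_int σ x'
  have h1 := hσ x' y' hy'
  refine (hg _ (y - x ^ q) ?_).1 h1
  change (y : AlgebraicClosure F) - (x : AlgebraicClosure F) ^ q =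
    g ((y' : AlgebraicClosure F) - (x' : AlgebraicClosure F) ^ q)
  rw [map_sub, map_pow, hy', hx', hxy, mix_inv]
  rfl

variable [NumberField F] {S : Finset ℕ} {n w : ℕ} {h : Fin n → ℕ}

lemma mix_mum (M : Mot F S n w h) (p₀ c : ℕ) {𝔓 𝔔 : Ideal (Zb F)} (g : Gal F)
    (hg : ∀ x y : Zb F, (y : AlgebraicClosure F) = g (x : AlgebraicClosure F) →
      (x ∈ 𝔓 ↔ y ∈ 𝔔)) (hM : M.MumAt p₀ c 𝔓) : M.MumAt p₀ c 𝔔 := by
  intro l _ hl
  obtain ⟨τ, h1, h2, h3, h4⟩ := hM l hl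
  refine ⟨g * τ * g⁻¹, mix_cong g hg 1 τ h1, ?_, ?_, ?_⟩
  · intro h0
    apply h2
    rw [mix_pow (rat (M.ρ l)) g τ, h0, Matrix.mul_zero, Matrix.zero_mul]
  · intro hc h0
    apply h3 hc
    rw [mix_pow (res (M.ρ l)) g τ, h0, Matrix.mul_zero, Matrix.zero_mul]
  · intro k g' hk hg'
    have hg2 : ∀ x y : Zb F, (y : AlgebraicClosure F) = g⁻¹ (x : AlgebraicClosure F) →
        (x ∈ 𝔔 ↔ y ∈ 𝔓) := by
      intro x y hxy
      refine (hg y x ?_).symm
      rw [hxy, mix_inv]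
    have h5 := mix_cong g⁻¹ hg2 (p₀ ^ k) g' hg'
    rw [inv_inv] at h5
    have h6 := h4 k _ hk h5
    have h7 : g' * (g * τ * g⁻¹) * g'⁻¹ =
        g * ((g⁻¹ * g' * g) * τ * (g⁻¹ * g' * g)⁻¹) * g⁻¹ := by group
    rw [h7, map_mul, map_mul, h6, map_mul, map_mul, map_inv, conj_pow]

/-! ## The identity in `K` -/

lemma mix_algebra {K : Type} [Field K] (X Y a a' b b' u v e : K) (hX : X * a' = 1)
    (hY : Y * b' = 1) (ha : a * a' * v = 1) (hb : b * b' * u = 1) (he : a = b * e) :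
    u * X = v * e * Y := by
  have h1 : X = a * v := by
    calc X = X * (a * a' * v) := by rw [ha, mul_one]
      _ = (X * a') * (a * v) := by ring
      _ = a * v := by rw [hX, one_mul]
  have h2 : Y = b * u := by
    calc Y = Y * (b * b' * u) := by rw [hb, mul_one]
      _ = (Y * b') * (b * u) := by ring
      _ = b * u := by rw [hY, one_mul]
  rw [h1, h2, he]
  ring

lemma mix_core (lin : ST_LIN) (M : Mot F S n w h) (l : ℕ) [Fact l.Prime] {K : Type} [Field K]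
    (f : ℤ_[l] →+* K) (p : ℕ) (hpS : p ∈ S) (hpl : p ≠ l) (hpK : (p : K) ≠ 0)
    (r : ℕ) (x : Fin r → Gal F) (k : Fin r → ℕ) (𝔔 : Fin r → Ideal (Zb F))
    (hTr : TrData F p r x k 𝔔) (IM IG : Finset (Fin r)) (hI : Disjoint IM IG)
    (hI' : IM ∪ IG = Finset.univ)
    (hτ : ∀ i ∈ IM, ∃ τ : Gal F, CongPow (𝔔 i) 1 τ ∧
      (balRep f (M.ρ l) τ - 1) ^ (n - 1) ≠ 0 ∧
      ∀ (k : ℕ) (g : Gal F), 1 ≤ k → CongPow (𝔔 i) (p ^ k) g →
        M.ρ l (g * τ * g⁻¹) = (M.ρ l τ) ^ (p ^ k))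
    (P : Fin r → ℤ[X])
    (hP : ∀ i ∈ IG, ((M.ρ l (x i)⁻¹ : Matrix.GeneralLinearGroup (Fin n) ℤ_[l]) :
        Matrix (Fin n) (Fin n) ℤ_[l]).charpoly = (P i).map (Int.castRingHom ℤ_[l]))
    (m : ℕ) (B : Matrix (Fin n) (Fin m) K)
    (A : Gal F → Matrix (Fin m) (Fin m) K) (hs : IsSub (balRep f (M.ρ l)) B A) (s s' : ℕ)
    (h1 : (∏ i, (A (x i)).det) * (p : K) ^ s = 1)
    (h2 : (∏ i, (balRep f (M.ρ l) (x i)).det) * (p : K) ^ s' = 1) :
    (p : K) ^ (2 * m * s') * ∏ i ∈ IG, ((A (x i)⁻¹).det) ^ (2 * n) =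
      (p : K) ^ (2 * n * s) * (p : K) ^ ((∑ i ∈ IM, k i) * (m * n * (n - m))) *
        ∏ i ∈ IG, (((P i).coeff 0 : ℤ) : K) ^ (2 * m) := by
  have hY : ∀ i ∈ IG, (((P i).coeff 0 : ℤ) : K) ^ (2 * m) =
      ((balRep f (M.ρ l) (x i)⁻¹).det) ^ (2 * m) := by
    intro i hi
    have e : (P i).map (Int.castRingHom K) = (balRep f (M.ρ l) (x i)⁻¹).charpoly := by
      rw [balRep_apply, Matrix.charpoly_map, hP i hi, Polynomial.map_map]
      congr 1
      exact RingHom.ext_int _ _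
    rw [Matrix.det_eq_sign_charpoly_coeff, Fintype.card_fin, ← e, Polynomial.coeff_map, mul_pow,
      ← pow_mul, pow_mul' (-1 : K) n (2 * m), pow_mul (-1 : K) 2 m]
    simp
  rw [Finset.prod_congr rfl hY]
  have hpr : ∀ g : Fin r → K, (∏ i ∈ IM, g i) * ∏ i ∈ IG, g i = ∏ i, g i := by
    intro g
    rw [← Finset.prod_union hI, hI']
  refine mix_algebra (∏ i ∈ IG, ((A (x i)⁻¹).det) ^ (2 * n))
    (∏ i ∈ IG, ((balRep f (M.ρ l) (x i)⁻¹).det) ^ (2 * m))
    (∏ i ∈ IM, ((A (x i)).det) ^ (2 * n)) (∏ i ∈ IG, ((A (x i)).det) ^ (2 * n))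
    (∏ i ∈ IM, ((balRep f (M.ρ l) (x i)).det) ^ (2 * m))
    (∏ i ∈ IG, ((balRep f (M.ρ l) (x i)).det) ^ (2 * m)) _ _ _ ?_ ?_ ?_ ?_ ?_
  · rw [← Finset.prod_mul_distrib]
    refine Finset.prod_eq_one fun i _ => ?_
    rw [← mul_pow, mul_comm, hs.det_mul_inv, one_pow]
  · rw [← Finset.prod_mul_distrib]
    refine Finset.prod_eq_one fun i _ => ?_
    rw [← mul_pow, mul_comm, (IsSub.whole (balRep f (M.ρ l))).det_mul_inv, one_pow]
  · rw [hpr, Finset.prod_pow]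
    have e : (p : K) ^ (2 * n * s) = ((p : K) ^ s) ^ (2 * n) := by rw [← pow_mul]; congr 1; ring
    rw [e, ← mul_pow, h1, one_pow]
  · rw [hpr, Finset.prod_pow]
    have e : (p : K) ^ (2 * m * s') = ((p : K) ^ s') ^ (2 * m) := by
      rw [← pow_mul]; congr 1; ring
    rw [e, ← mul_pow, h2, one_pow]
  · rw [Finset.sum_mul, ← Finset.prod_pow_eq_pow_sum, ← Finset.prod_mul_distrib]
    refine Finset.prod_congr rfl fun i hi => ?_
    obtain ⟨hO, hk, hc⟩ := hTr.1 i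
    obtain ⟨τ, hτ1, hτ2, hτ3⟩ := hτ i hi
    obtain ⟨⟨C, hC⟩, hA⟩ := hs
    have h5 := hτ3 (k i) (x i) hk hc
    have h6 : balRep f (M.ρ l) (x i) * balRep f (M.ρ l) τ =
        balRep f (M.ρ l) τ ^ (p ^ k i) * balRep f (M.ρ l) (x i) := by
      have h7 : M.ρ l (x i) * M.ρ l τ = (M.ρ l τ) ^ (p ^ k i) * M.ρ l (x i) := by
        rw [← h5, map_mul, map_mul, map_inv, inv_mul_cancel_right]
      rw [← map_mul, ← map_pow, ← map_mul]
      rw [← map_mul, ← map_pow, ← map_mul] at h7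
      rw [balRep_apply, balRep_apply, h7]
    have h8 := lin K n m (p ^ k i) (by push_cast; exact pow_ne_zero _ hpK)
      (balRep f (M.ρ l) τ) (balRep f (M.ρ l) (x i)) B C (A τ) (A (x i)) h6
      (bal_nil M l f p hpS hpl (𝔔 i) hO τ hτ1) hτ2 hC (hA τ) (hA (x i))
    rw [h8]
    push_cast
    rw [← pow_mul]

end

/-! ## The integer `D` -/

lemma mix_coeff (P : ℤ[X]) (n : ℕ) (R : ℝ) (hP : P.Monic) (hd : P.natDegree = n)
    (hr : ∀ z : ℂ, (P.map (Int.castRingHom ℂ)).IsRoot z → ‖z‖ ^ 2 = R) :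
    (((P.coeff 0).natAbs : ℕ) : ℝ) ^ 2 = R ^ n := by
  have hm : (P.map (Int.castRingHom ℂ)).Monic := hP.map _
  have hs : (P.map (Int.castRingHom ℂ)).Splits := IsAlgClosed.splits _
  have h0 := hs.coeff_zero_eq_prod_roots_of_monic hm
  rw [Polynomial.coeff_map] at h0
  have hc : Multiset.card (P.map (Int.castRingHom ℂ)).roots = n := by
    rw [← hd, ← hP.natDegree_map (Int.castRingHom ℂ)]
    exact hs.natDegree_eq_card_roots.symm
  have h1 : ∀ s : Multiset ℂ, (∀ z ∈ s, ‖z‖ ^ 2 = R) → ‖s.prod‖ ^ 2 = R ^ Multiset.card s := by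
    intro s
    induction s using Multiset.induction_on with
    | empty => intro _; simp
    | cons a s ih =>
      intro hz
      rw [Multiset.prod_cons, norm_mul, mul_pow, ih (fun z hz' => hz z (Multiset.mem_cons_of_mem hz')),
        hz a (Multiset.mem_cons_self a s), Multiset.card_cons, pow_succ]
      ring
  have h2 := h1 _ (fun z hz => hr z (Polynomial.isRoot_of_mem_roots hz))
  rw [hc] at h2
  rw [← h2]
  have h3 : ‖(Int.castRingHom ℂ) (P.coeff 0)‖ = (((P.coeff 0).natAbs : ℕ) : ℝ) := by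
    rw [eq_intCast, Complex.norm_intCast, Nat.cast_natAbs, Int.cast_abs]
  rw [← h3, h0, norm_mul, norm_pow, norm_neg, norm_one, one_pow, one_mul]

lemma mix_abs {K : Type} [Field K] (a : ℤ) (m : ℕ) :
    ((a.natAbs : ℕ) : K) ^ (2 * m) = ((a : ℤ) : K) ^ (2 * m) := by
  rw [pow_mul, pow_mul]
  congr 1
  have h1 : (((a.natAbs : ℕ) : ℤ)) ^ 2 = a ^ 2 := Int.natAbs_sq a
  have h2 := congrArg (Int.cast : ℤ → K) h1
  push_cast at h2
  simpa using h2

lemma mix_pro (pro : ST_PRO) {r : ℕ} (IG : Finset (Fin r)) (k : Fin r → ℕ) (P : Fin r → ℤ[X])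
    (p : ℕ) (hp : p.Prime) (n m w s s' d K0 : ℕ)
    (hmon : ∀ i ∈ IG, (P i).Monic) (hdeg : ∀ i ∈ IG, (P i).natDegree = n)
    (hroot : ∀ i ∈ IG, ∀ z : ℂ, ((P i).map (Int.castRingHom ℂ)).IsRoot z →
      ‖z‖ ^ 2 = (p : ℝ) ^ (k i * w))
    (hs : 2 * s = d * m * w) (hs' : 2 * s' = d * n * w) (hE : K0 * (m * n * (n - m)) ≠ 0) :
    ∃ D : ℤ, D ≠ 0 ∧ ∀ (K : Type) [Field K] (Q : Fin r → K[X]),
      (∀ i ∈ IG, (Q i).Monic ∧ (Q i).natDegree = m ∧ Q i ∣ (P i).map (Int.castRingHom K)) →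
      (p : K) ^ (2 * m * s') * ∏ i ∈ IG, ((-1) ^ m * (Q i).coeff 0) ^ (2 * n) =
        (p : K) ^ (2 * n * s) * (p : K) ^ (K0 * (m * n * (n - m))) *
          ∏ i ∈ IG, (((P i).coeff 0 : ℤ) : K) ^ (2 * m) →
      (D : K) = 0 := by
  classical
  let ι : Type := {i // i ∈ IG} × Fin (2 * n)
  let e : Fin (Fintype.card ι) ≃ ι := (Fintype.equivFin ι).symm
  have hprod : ∀ {R : Type} [CommMonoid R] (g : Fin r → R),
      ∏ j : Fin (Fintype.card ι), g ((e j).1 : Fin r) = ∏ i ∈ IG, g i ^ (2 * n) := by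
    intro R _ g
    rw [Equiv.prod_comp e (fun j : ι => g (j.1 : Fin r)), Fintype.prod_prod_type]
    simp only [Finset.prod_const, Finset.card_univ, Fintype.card_fin]
    exact Finset.prod_coe_sort IG (fun i => g i ^ (2 * n))
  set Z : ℕ := ∏ i ∈ IG, ((P i).coeff 0).natAbs ^ (2 * m) with hZ
  obtain ⟨D, hD, hD'⟩ := pro (Fintype.card ι) m (p ^ (2 * m * s'))
    (p ^ (2 * n * s) * p ^ (K0 * (m * n * (n - m))) * Z)
    (fun j => (p : ℝ) ^ (k ((e j).1 : Fin r) * w)) (fun j => P ((e j).1 : Fin r))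
    (fun j => hmon _ (e j).1.2) (fun j => hroot _ (e j).1.2) (by
      intro heq
      have h1 : ∏ j : Fin (Fintype.card ι), ((p : ℝ) ^ (k ((e j).1 : Fin r) * w)) ^ m =
          (p : ℝ) ^ (2 * n * m * w * ∑ i ∈ IG, k i) := by
        rw [hprod (fun i => ((p : ℝ) ^ (k i * w)) ^ m), Finset.mul_sum,
          ← Finset.prod_pow_eq_pow_sum]
        refine Finset.prod_congr rfl fun i _ => ?_
        rw [← pow_mul, ← pow_mul]
        congr 1
        ring
      have h2 : ((Z : ℕ) : ℝ) ^ 2 = (p : ℝ) ^ (2 * n * m * w * ∑ i ∈ IG, k i) := by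
        rw [hZ, Nat.cast_prod, ← Finset.prod_pow, Finset.mul_sum,
          ← Finset.prod_pow_eq_pow_sum]
        refine Finset.prod_congr rfl fun i hi => ?_
        have h3 := mix_coeff (P i) n _ (hmon i hi) (hdeg i hi) (hroot i hi)
        have h4 : (((((P i).coeff 0).natAbs ^ (2 * m) : ℕ)) : ℝ) ^ 2 =
            (((((P i).coeff 0).natAbs : ℕ) : ℝ) ^ 2) ^ (2 * m) := by
          push_cast
          rw [← pow_mul, ← pow_mul]
          congr 1
          ring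
        rw [h4, h3, ← pow_mul, ← pow_mul]
        congr 1
        ring
      have hp0 : (p : ℝ) ≠ 0 := by exact_mod_cast hp.ne_zero
      push_cast at heq
      rw [h1, mul_pow, h2, mul_pow, ← pow_mul, ← pow_mul, ← pow_mul] at heq
      have h5 := mul_right_cancel₀ (pow_ne_zero _ hp0) heq
      rw [← pow_add] at h5
      have h6 : p ^ (2 * m * s' * 2) = p ^ (2 * n * s * 2 + K0 * (m * n * (n - m)) * 2) := by
        exact_mod_cast h5
      have h7 := Nat.pow_right_injective hp.two_le h6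
      have h8 : 2 * m * s' * 2 = 2 * n * s * 2 := by
        have h9 : 2 * m * s' * 2 = 2 * m * (2 * s') := by ring
        have h10 : 2 * n * s * 2 = 2 * n * (2 * s) := by ring
        rw [h9, h10, hs, hs']
        ring
      omega)
  refine ⟨D, hD, ?_⟩
  intro K _ Q hQ hid
  refine hD' K (fun j => Q ((e j).1 : Fin r)) (fun j => hQ _ (e j).1.2) ?_
  rw [hprod (fun i => (-1) ^ m * (Q i).coeff 0)]
  push_cast
  rw [hid, hZ]
  push_cast
  congr 1
  exact Finset.prod_congr rfl fun i _ => (mix_abs _ _).symm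

/-! ## The theorem -/

theorem st_MIX (tri : ST_TRI2) (bal : ST_BAL) (lin : ST_LIN) (pro : ST_PRO) : ST_MIX := by
  classical
  intro F _ _ S hS n w h M p hpS hU
  obtain ⟨r, x, k, 𝔔, hT, hCov⟩ := tri F
  obtain ⟨hb, cb, hb'⟩ := bal F r x k 𝔔 hT S hS n w h M
  have hd : 0 < Module.finrank ℚ F := Module.finrank_pos
  have hpp : p.Prime := hS p hpS
  obtain ⟨c, ⟨𝔓₀, hO, hM0⟩, hall⟩ := hU
  have hTr := hT.1 p hpp
  set IM : Finset (Fin (r p)) := Finset.univ.filter (fun i => M.MumAt p c (𝔔 p i)) with hIM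
  set IG : Finset (Fin (r p)) := Finset.univ.filter (fun i => ¬ M.MumAt p c (𝔔 p i)) with hIG
  have hdisj : Disjoint IM IG := by
    rw [Finset.disjoint_left]
    intro i hi hi'
    exact (Finset.mem_filter.1 hi').2 (Finset.mem_filter.1 hi).2
  have hun : IM ∪ IG = Finset.univ := by
    apply Finset.eq_univ_of_forall
    intro i
    by_cases hi : M.MumAt p c (𝔔 p i)
    · exact Finset.mem_union_left _ (Finset.mem_filter.2 ⟨Finset.mem_univ _, hi⟩)
    · exact Finset.mem_union_right _ (Finset.mem_filter.2 ⟨Finset.mem_univ _, hi⟩)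
  have hgood : ∀ i ∈ IG, M.GoodAt p (𝔔 p i) := fun i hi =>
    (hall _ (hTr.1 i).1).resolve_left (Finset.mem_filter.1 hi).2
  have hPex : ∀ i, ∃ P : ℤ[X], i ∈ IG →
      ((∀ z : ℂ, (P.map (Int.castRingHom ℂ)).IsRoot z → ‖z‖ ^ 2 = (p : ℝ) ^ (k p i * w)) ∧
      ∀ (l : ℕ) [Fact l.Prime], l ≠ p →
        ((M.ρ l (x p i)⁻¹ : Matrix.GeneralLinearGroup (Fin n) ℤ_[l]) :
          Matrix (Fin n) (Fin n) ℤ_[l]).charpoly = P.map (Int.castRingHom ℤ_[l])) := by
    intro i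
    by_cases hi : i ∈ IG
    · obtain ⟨P, h1, h2⟩ := (hgood i hi).2 (k p i) (x p i) (hTr.1 i).2.1 (hTr.1 i).2.2
      exact ⟨P, fun _ => ⟨h1, h2⟩⟩
    · exact ⟨0, fun h => absurd h hi⟩
  choose P hP using hPex
  have hmd : ∀ i ∈ IG, (P i).Monic ∧ (P i).natDegree = n := by
    intro i hi
    obtain ⟨l₀, hl₀, hl₀p⟩ : ∃ l₀ : ℕ, l₀.Prime ∧ l₀ ≠ p := by
      by_cases h2 : p = 2
      · exact ⟨3, Nat.prime_three, by omega⟩
      · exact ⟨2, Nat.prime_two, Ne.symm h2⟩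
    have : Fact l₀.Prime := ⟨hl₀⟩
    have h1 := (hP i hi).2 l₀ hl₀p
    have hmon : (P i).Monic := by
      refine Polynomial.monic_of_injective (f := Int.castRingHom ℤ_[l₀]) ?_ ?_
      · exact Int.cast_injective
      · rw [← h1]; exact Matrix.charpoly_monic _
    refine ⟨hmon, ?_⟩
    rw [← hmon.natDegree_map (Int.castRingHom ℤ_[l₀]), ← h1, Matrix.charpoly_natDegree_eq_dim,
      Fintype.card_fin]
  obtain ⟨i₀, g, hg⟩ := hCov p hpp 𝔓₀ hO
  have hi₀ : i₀ ∈ IM := Finset.mem_filter.2 ⟨Finset.mem_univ _, mix_mum M p c g hg hM0⟩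
  have hK0 : 0 < ∑ i ∈ IM, k p i :=
    lt_of_lt_of_le (hTr.1 i₀).2.1
      (Finset.single_le_sum (f := fun i => k p i) (fun _ _ => Nat.zero_le _) hi₀)
  have hDex : ∀ m : ℕ, ∃ D : ℤ, D ≠ 0 ∧ ∀ (K : Type) [Field K] (Q : Fin (r p) → K[X])
      (s s' : ℕ), 0 < m → m < n → 2 * s = Module.finrank ℚ F * m * w →
      2 * s' = Module.finrank ℚ F * n * w →
      (∀ i ∈ IG, (Q i).Monic ∧ (Q i).natDegree = m ∧ Q i ∣ (P i).map (Int.castRingHom K)) →
      (p : K) ^ (2 * m * s') * ∏ i ∈ IG, ((-1) ^ m * (Q i).coeff 0) ^ (2 * n) =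
        (p : K) ^ (2 * n * s) * (p : K) ^ ((∑ i ∈ IM, k p i) * (m * n * (n - m))) *
          ∏ i ∈ IG, (((P i).coeff 0 : ℤ) : K) ^ (2 * m) →
      (D : K) = 0 := by
    intro m
    by_cases hc : ∃ s s' : ℕ, 0 < m ∧ m < n ∧ 2 * s = Module.finrank ℚ F * m * w ∧
        2 * s' = Module.finrank ℚ F * n * w
    · obtain ⟨s, s', hm0, hmn, hs, hs'⟩ := hc
      have hE : (∑ i ∈ IM, k p i) * (m * n * (n - m)) ≠ 0 := by
        have h1 : 0 < n - m := by omega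
        have h2 : 0 < n := by omega
        exact (Nat.mul_pos hK0 (Nat.mul_pos (Nat.mul_pos hm0 h2) h1)).ne'
      obtain ⟨D, hD, hD'⟩ := mix_pro pro IG (k p) P p hpp n m w s s' (Module.finrank ℚ F)
        (∑ i ∈ IM, k p i) (fun i hi => (hmd i hi).1) (fun i hi => (hmd i hi).2)
        (fun i hi => (hP i hi).1) hs hs' hE
      refine ⟨D, hD, fun K _ Q s1 s1' _ _ h1 h1' hQ hid => hD' K Q hQ ?_⟩
      have e1 : s1 = s := by omega
      have e2 : s1' = s' := by omega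
      rw [← e1, ← e2]
      exact hid
    · exact ⟨1, one_ne_zero, fun K _ Q s s' h0 h1 h2 h3 _ _ =>
        absurd ⟨s, s', h0, h1, h2, h3⟩ hc⟩
  choose D hD hD' using hDex
  have key : ∀ (l : ℕ) [Fact l.Prime], l ≠ p → ∀ (K : Type) [Field K] (f : ℤ_[l] →+* K),
      (p : K) ≠ 0 →
      (∀ i ∈ IM, ∃ τ : Gal F, CongPow (𝔔 p i) 1 τ ∧ (balRep f (M.ρ l) τ - 1) ^ (n - 1) ≠ 0 ∧
        ∀ (k : ℕ) (g : Gal F), 1 ≤ k → CongPow (𝔔 p i) (p ^ k) g →
          M.ρ l (g * τ * g⁻¹) = (M.ρ l τ) ^ (p ^ k)) →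
      ∀ (m : ℕ) (B : Matrix (Fin n) (Fin m) K) (A : Gal F → Matrix (Fin m) (Fin m) K),
      IsSub (balRep f (M.ρ l)) B A → ∀ s s' : ℕ, 0 < m → m < n →
      2 * s = Module.finrank ℚ F * m * w → 2 * s' = Module.finrank ℚ F * n * w →
      (∏ i, (A (x p i)).det) * (p : K) ^ s = 1 →
      (∏ i, (balRep f (M.ρ l) (x p i)).det) * (p : K) ^ s' = 1 → (D m : K) = 0 := by
    intro l _ hl K _ f hpK hτ m B A hs s s' hm0 hmn h1 h2 h3 h4
    have h5 := mix_core lin M l f p hpS (Ne.symm hl) hpK (r p) (x p) (k p) (𝔔 p) hTr IM IG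
      hdisj hun hτ P (fun i hi => (hP i hi).2 l hl) m B A hs s s' h3 h4
    refine hD' m K (fun i => (A (x p i)⁻¹).charpoly) s s' hm0 hmn h1 h2
      (fun i hi => ⟨Matrix.charpoly_monic _, ?_, ?_⟩) ?_
    · rw [Matrix.charpoly_natDegree_eq_dim, Fintype.card_fin]
    · have e : (P i).map (Int.castRingHom K) = (balRep f (M.ρ l) (x p i)⁻¹).charpoly := by
        rw [balRep_apply, Matrix.charpoly_map, (hP i hi).2 l hl, Polynomial.map_map]
        congr 1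
        exact RingHom.ext_int _ _
      rw [e]
      obtain ⟨⟨C, hC⟩, hA⟩ := hs
      exact bal_dvd _ _ B C hC (hA _)
    · have e : ∀ i, (-1 : K) ^ m * ((A (x p i)⁻¹).charpoly).coeff 0 = (A (x p i)⁻¹).det := by
        intro i
        rw [Matrix.det_eq_sign_charpoly_coeff, Fintype.card_fin]
      simp only [e]
      exact h5
  have hirr : ∀ (l : ℕ) [Fact l.Prime], l ≠ p → IsIrr (rat (M.ρ l)) := by
    intro l _ hl m B A hs
    have hmn := irr_le _ _ _ hs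
    by_contra hcon
    obtain ⟨⟨J, hJ, hJ1, hJ2⟩, -⟩ := hb l m B A hs
    obtain ⟨⟨J', hJ', hJ1', hJ2'⟩, -⟩ := hb l n 1 _ (irr_whole (rat (M.ρ l)))
    have hpK : (p : ℚ_[l]) ≠ 0 := by exact_mod_cast hpp.ne_zero
    have h1 := key l hl ℚ_[l] (algebraMap ℤ_[l] ℚ_[l]) hpK (fun i hi => by
      obtain ⟨τ, h1, h2, -, h3⟩ := (Finset.mem_filter.1 hi).2 l hl
      exact ⟨τ, h1, h2, h3⟩) m B A hs _ _ (by omega) (by omega) hJ1 hJ1'
      (hJ2 p hpp (Ne.symm hl)) (hJ2' p hpp (Ne.symm hl))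
    exact hD m (by exact_mod_cast h1)
  refine ⟨fun l _ hl => ⟨hirr l hl, fun u hu => ?_⟩, ?_⟩
  · rcases Nat.eq_zero_or_pos n with rfl | hn
    · exact ⟨0, Subsingleton.elim _ _⟩
    suffices hs : ∃ (v : Fin n → ℚ_[l]) (a : ℚ_[l]), v ≠ 0 ∧ u.mulVec v = a • v by
      obtain ⟨v, a, hv, hav⟩ := hs
      exact ⟨a, end_eig (hirr l hl) u hu v hv a hav⟩
    obtain ⟨τ, hτ, hτ1, -, -⟩ := hM0 l hl
    have hτ2 := M.semistable l p hpS (Ne.symm hl) 𝔓₀ hO τ hτ
    refine end_line u _ hτ1 ?_ (end_rank _ hτ2 hn)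
    have h4 : Commute (rat (M.ρ l) τ - 1) u := by
      change (rat (M.ρ l) τ - 1) * u = u * (rat (M.ρ l) τ - 1)
      rw [sub_mul, mul_sub, hu, one_mul, mul_one]
    exact h4.pow_left (n - 1)
  · refine ⟨cb + c + p + ∑ m ∈ Finset.range (n + 1), (D m).natAbs, fun l _ hl m B A hs => ?_⟩
    have hmn := irr_le _ _ _ hs
    obtain ⟨J, hJ, hJ1, hJ2⟩ := hb' l (by omega) m B A hs
    obtain ⟨J', hJ', hJ1', hJ2'⟩ := hb' l (by omega) n 1 _ (irr_whole (res (M.ρ l)))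
    have hlp : l ≠ p := by omega
    have hpK : (p : ZMod l) ≠ 0 := by
      rw [Ne, ZMod.natCast_eq_zero_iff]
      intro hdvd
      have := Nat.le_of_dvd hpp.pos hdvd
      omega
    by_contra hcon
    have h1 := key l hlp (ZMod l) (PadicInt.toZMod (p := l)) hpK (fun i hi => by
      obtain ⟨τ, h1, -, h2, h3⟩ := (Finset.mem_filter.1 hi).2 l hlp
      exact ⟨τ, h1, h2 (by omega), h3⟩) m B A hs _ _ (by omega) (by omega) hJ1 hJ1'
      (hJ2 p hpp (Ne.symm hlp)) (hJ2' p hpp (Ne.symm hlp))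
    have h2 : (D m).natAbs ≤ ∑ m ∈ Finset.range (n + 1), (D m).natAbs :=
      Finset.single_le_sum (f := fun m => (D m).natAbs) (fun _ _ => Nat.zero_le _)
        (Finset.mem_range.mpr (by omega))
    rw [ZMod.intCast_zmod_eq_zero_iff_dvd] at h1
    have h5 := Int.natAbs_dvd_natAbs.mpr h1
    have h6 := Nat.le_of_dvd (Int.natAbs_pos.mpr (hD m)) h5
    simp only [Int.natAbs_natCast] at h6
    omega

end MU
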